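import Pool.Agent.Y586.GalvinFN2

/-!
# Fine normal ultrafilters on `P_κ(κ⁺)` do not have the Galvin property

Let `U` be a `κ`-complete fine normal ultrafilter on `P_κ(κ⁺)`. In ZFC, `Gal(U, κ, κ⁺⁺)` fails. So
`Gal(U, κ, 2^(κ⁺))`, the property of the question, fails for every such `U` when `2^(κ⁺) = κ⁺⁺`; it
also fails for every such `U` when `2^κ = κ⁺`, and more generally when `2^κ = κ⁺ⁿ` for some finite
`n` and `2^κ < 2^(κ⁺)`, or when `[2^κ]^(κ⁺)` has a cofinal subfamily of size `< 2^(κ⁺)`.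

The sets which refute the property are `{x : x is closed under f}`, for `f` in a family of functions
`κ⁺ → κ⁺` any two of which agree at at most `κ` points.
-/

set_option autoImplicit false

namespace Pool.Agent.Results.MP_a3089e_lc.FineNormalNotGalvin

open Cardinal Set Order

/-- `U` is a `κ`-complete fine normal ultrafilter on `P_κ(X)`. -/
structure FineNormal (κ : Cardinal.{0}) (X : Type) (U : Ultrafilter {x : Set X // #x < κ}) :
    Prop where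
  complete : ∀ S : Set (Set {x : Set X // #x < κ}), #S < κ → (∀ s ∈ S, s ∈ U) → ⋂₀ S ∈ U
  fine : ∀ a : X, {x : {x : Set X // #x < κ} | a ∈ x.1} ∈ U
  normal : ∀ f : {x : Set X // #x < κ} → X, {x : {x : Set X // #x < κ} | f x ∈ x.1} ∈ U →
    ∃ a : X, {x : {x : Set X // #x < κ} | f x = a} ∈ U

/-- `Gal(U, μ, lam)`: among any `lam` members of `U` there are `μ` whose intersection is in `U`. -/
def Gal {Y : Type} (U : Ultrafilter Y) (μ lam : Cardinal.{0}) : Prop :=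
  ∀ S : Set (Set Y), (∀ s ∈ S, s ∈ U) → #S = lam → ∃ T ⊆ S, #T = μ ∧ ⋂₀ T ∈ U

theorem result (κ : Cardinal.{0}) (X : Type) (hκ : ℵ₀ < κ) (hX : #X = succ κ)
    (U : Ultrafilter {x : Set X // #x < κ}) (hU : FineNormal κ X U) :
    -- in ZFC, `Gal(U, κ, κ⁺⁺)` fails
    ¬ Gal U κ (succ (succ κ)) ∧
    -- and `Gal(U, κ, 2^(κ⁺))` fails in each of the following cases
    ( -- `2^κ = κ⁺`
      (2 : Cardinal.{0}) ^ κ = succ κ ∨
      -- `2^(κ⁺) = κ⁺⁺`
      (2 : Cardinal.{0}) ^ succ κ = succ (succ κ) ∨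
      -- `2^κ < 2^(κ⁺)` and `2^κ` is a finite successor of `κ`
      ((2 : Cardinal.{0}) ^ κ < 2 ^ succ κ ∧ ∃ n : ℕ, (2 : Cardinal.{0}) ^ κ = succ^[n] κ) ∨
      -- some family of less than `2^(κ⁺)` sets is cofinal in `[2^κ]^(κ⁺)`
      (∃ (Z : Type) (C : Set (Set Z)), 2 ^ κ ≤ #Z ∧ (∀ c ∈ C, #c ≤ succ κ) ∧
        (∀ s : Set Z, #s ≤ succ κ → ∃ c ∈ C, s ⊆ c) ∧ #C < 2 ^ succ κ) ∨
      -- there are `2^(κ⁺)` functions `κ⁺ → κ⁺`, any `κ` of which take `κ` values at some point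
      (∃ (ι : Type) (F : ι → X → X), #ι = 2 ^ succ κ ∧
        ∀ I : Set ι, #I = κ → ∃ ξ, κ ≤ #((fun i => F i ξ) '' I)) →
      ¬ Gal U κ (2 ^ succ κ)) := by
  have h6 : ∀ μ : Cardinal.{0}, κ < μ → (∃ (ι : Type) (F : ι → X → X), #ι = μ ∧
        ∀ I : Set ι, #I = κ → ∃ ξ, κ ≤ #((fun i => F i ξ) '' I)) → ¬ Gal U κ μ := by
    intro μ hμ h hG
    obtain ⟨S, hS1, hS2, hS3⟩ := Y586.GFN.noGal (μ := μ) hκ.le U hU.fine hU.normal hμ h
    obtain ⟨T, hTS, hT, hTU⟩ := hG S hS1 hS2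
    exact hS3 T hTS hT.ge hTU
  have key : ∀ μ : Cardinal.{0}, κ < μ → Y586.GFN.HasAD κ X μ → ¬ Gal U κ μ :=
    fun μ hμ h => h6 μ hμ (Y586.GFN.spread_of_hasAD hκ.le hX h)
  have hlt : κ < (2 : Cardinal.{0}) ^ succ κ := (lt_succ κ).trans (cantor _)
  have h1 : ¬ Gal U κ (succ (succ κ)) :=
    key _ ((lt_succ κ).trans (lt_succ _)) (Y586.GFN.hasAD_succ κ X hκ.le hX)
  refine ⟨h1, ?_⟩
  rintro (h | h | ⟨h, n, hn⟩ | h | h)
  · refine key _ hlt (Y586.GFN.hasAD_of_iterate (n := 1) hκ.le hX h ?_)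
    rw [h]
    exact cantor _
  · rw [h]
    exact h1
  · exact key _ hlt (Y586.GFN.hasAD_of_iterate hκ.le hX hn h)
  · exact key _ hlt (Y586.GFN.hasAD_of_cover' hκ.le hX h)
  · exact h6 _ hlt h

end Pool.Agent.Results.MP_a3089e_lc.FineNormalNotGalvin
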